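import Mathlib
import Pool.Prelude.Def_F_fc9cdd2f
import Pool.Agent.W_b91de3_h49.LinIndK

set_option autoImplicit false

namespace Pool.Agent.Results.MP_b91de3_nt.LinearIndicialRoots

open N27ec9e13 Polynomial IsDedekindDomain NumberField Pool.Agent.W_b91de3_h49

/-- Let `f ≠ 0` be a solution in `ℚ⟦z⟧` of the linear differential equation
`∑ i ≤ n, a i * f^(i) = 0` (`a i` polynomials) which is `ω`-integral for a superlinear `ω`.  Then at
infinity and at every algebraic point `s` the indicial polynomial of the equation has a root in the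
prime field modulo all but finitely many primes. -/
theorem result :
    ∀ (n : ℕ) (a : ℕ → ℚ[X]) (f : PowerSeries ℚ), f ≠ 0 →
      ∑ i ∈ Finset.range (n + 1), (a i : PowerSeries ℚ) * (PowerSeries.derivative ℚ)^[i] f = 0 →
    ∀ ω : Nat.Primes → ℤ, omegaSuperlinear ω → omegaIntegral ω (PowerSeries.coeff · f) →
      -- the point at infinity
      (∀ d : ℤ, (∀ i ≤ n, ∀ j, (a i).coeff j ≠ 0 → (j : ℤ) - i ≤ d) →
        ∃ P0 : ℕ, ∀ p, P0 ≤ p → p.Prime → ∃ k : ℕ, (p : ℤ) ∣ (ind n a d k).num) ∧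
      -- the algebraic points
      (∀ (K : Type) [Field K] [NumberField K] (s : K) (d : ℤ),
        (∀ i ≤ n, ∀ j, (taylor s ((a i).map (algebraMap ℚ K))).coeff j ≠ 0 → d ≤ (j : ℤ) - i) →
        ∀ᶠ v : HeightOneSpectrum (𝓞 K) in Filter.cofinite, ∃ k : ℕ,
          v.valuation K (ind n (fun i => taylor s ((a i).map (algebraMap ℚ K))) d k) < 1) := by
  intro n a f hf0 hL ω hω hint
  exact ⟨(indicial_roots n a f hf0 hL ω hω hint).1,
    fun K _ _ s d hd => indicial_roots_alg n a f hf0 hL ω hω hint s d hd⟩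

end Pool.Agent.Results.MP_b91de3_nt.LinearIndicialRoots
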