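import Mathlib
import Pool.Prelude.Def_F_fc9cdd2f
import Pool.Agent.W_b91de3_h49.OnePole

set_option autoImplicit false

namespace Pool.Agent.Results.MP_b91de3_nt.LinearOnePole

open N27ec9e13 Polynomial

/-- The conjecture of Lam and Litt holds for every linear equation `f^(n) = r f`, `n ≥ 1`, whose
coefficient `r = B / (z - s)^m` is a rational function with at most one finite pole `s ≠ 0`. -/
theorem result :
    ∀ (n m : ℕ), 1 ≤ n → ∀ s : ℚ, s ≠ 0 → ∀ (B : ℚ[X]) (f : PowerSeries ℚ),
      (((X - C s) ^ m : ℚ[X]) : PowerSeries ℚ) * (PowerSeries.derivative ℚ)^[n] f =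
        (B : PowerSeries ℚ) * f →
    ∀ ω : Nat.Primes → ℤ, omegaSuperlinear ω → omegaIntegral ω (PowerSeries.coeff · f) →
      ∃ N : ℕ, IsCoeffIntegralAdjointInvNat f N := by
  intro n m hn s hs B f h ω hω hint
  exact Pool.Agent.W_b91de3_h49.one_pole hn hs B f h ω hω hint

end Pool.Agent.Results.MP_b91de3_nt.LinearOnePole
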