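import Mathlib
import Pool.Prelude.Def_F_fc9cdd2f
import Pool.Agent.W_MP_b91de3_nt.Main

set_option autoImplicit false

namespace Pool.Agent.Results.MP_b91de3_nt.LogFormIntegrable

open N27ec9e13 PowerSeries Pool.Agent.W_MP_b91de3_nt

universe u

/-- Let `f` solve the algebraic ODE given by `g` and be `w`-integral for a superlinear `w`.
Let `x 0 = t ^ e`, `x 1 = f (t ^ e)`, `x 2, ..., x m` be power series over a number field `K`,
algebraic over the differential ring of `f`.  If `m` closed logarithmic forms
`∑ k, lam k * dF k / F k + d (G / H)` in `m + 1` variables vanish along the curve `x` and are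
independent modulo `dX_0` (and, for `m ≥ 2`, are regular and independent modulo `dX_0` at the
generic point of the curve), then `f` has bounded denominators. -/
theorem result :
    ∀ (n : ℕ) (f : PowerSeries ℚ) (g : MvRatFunc (Fin (n + 1)) ℚ),
      IsSolutionOfAlgebraicODE n f g →
    ∀ w : Nat.Primes → ℤ, omegaSuperlinear w → omegaIntegral w (PowerSeries.coeff · f) →
    ∀ (K : Type u) [Field K] [NumberField K] (e : ℕ) (he : e ≠ 0) (m : ℕ), 1 ≤ m →
    ∀ x : Fin (m + 1) → PowerSeries K, x 0 = X ^ e → x 1 = ram K he f →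
      (∀ i, IsAlgebraic (diffRing K he f) (x i)) →
    ∀ ω : Fin m → LogForm (Fin (m + 1)) K,
      -- the forms vanish along the curve `x`
      (∀ j, ∑ i, MvPolynomial.aeval x ((ω j).num i) * derivative K (x i) = 0) →
      -- nondegeneracy
      (∀ j k, (ω j).F k ≠ 0) → (∀ j, (ω j).H ≠ 0) →
      Matrix.det (Matrix.of fun j k : Fin m => (ω j).num k.succ) ≠ 0 →
      (2 ≤ m → (∀ j k, MvPolynomial.aeval x ((ω j).F k) ≠ 0) ∧
        (∀ j, MvPolynomial.aeval x (ω j).H ≠ 0) ∧
        MvPolynomial.aeval x
          (Matrix.det (Matrix.of fun j k : Fin m => (ω j).num k.succ)) ≠ 0) →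
      ∃ N : ℕ, IsCoeffIntegralAdjointInvNat f N := by
  intro n f g _ w hw hint K _ _ e he m hm x hx0 hx1 hx ω hker hF hH hdet hgen
  exact bounded_of_logForms K f w hw hint he m hm x hx0 hx1 hx ω hF hH hdet hgen hker

end Pool.Agent.Results.MP_b91de3_nt.LogFormIntegrable
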