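import Mathlib
import Pool.Prelude.Def_F_fc9cdd2f
import Pool.Agent.W_b91de3_h49.Main

set_option autoImplicit false

namespace Pool.Agent.Results.MP_b91de3_nt.MeromorphicFiniteOrder

open N27ec9e13

/-- Let `f` solve the algebraic ODE given by `g` (of any order `n`), and suppose that `f` is the
Taylor series of a meromorphic function on the whole complex plane of order at most `ρ` and finite
type, in the form `f * h2 = h1` with `|coeff k h_i| ≤ A C ^ k / (k!) ^ (1 / ρ)`.  If `f` is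
`ω`-integral with `ω(p) / p ^ ρ → ∞` (for `ρ = 1`: `ω` superlinear), then `f` is a rational
function; in particular it has bounded denominators. -/
theorem result :
    ∀ (n : ℕ) (f : PowerSeries ℚ) (g : MvRatFunc (Fin (n + 1)) ℚ),
      IsSolutionOfAlgebraicODE n f g →
    ∀ ρ : ℝ, 0 < ρ →
    ∀ ω : Nat.Primes → ℤ,
      Filter.Tendsto (fun p : Nat.Primes => (ω p : ℝ) / (p : ℝ) ^ ρ)
        (Filter.comap (fun p : Nat.Primes => (p : ℕ)) Filter.atTop) Filter.atTop →
      omegaIntegral ω (PowerSeries.coeff · f) →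
    ∀ h1 h2 : PowerSeries ℂ, h2 ≠ 0 →
      PowerSeries.map (algebraMap ℚ ℂ) f * h2 = h1 →
    ∀ A C : ℝ,
      (∀ k, ‖PowerSeries.coeff k h1‖ ≤ A * C ^ k / (k.factorial : ℝ) ^ (1 / ρ)) →
      (∀ k, ‖PowerSeries.coeff k h2‖ ≤ A * C ^ k / (k.factorial : ℝ) ^ (1 / ρ)) →
      (∃ u v : Polynomial ℚ, v ≠ 0 ∧ (v : PowerSeries ℚ) * f = (u : PowerSeries ℚ)) ∧
        ∃ N : ℕ, IsCoeffIntegralAdjointInvNat f N := by
  intro n f g hf ρ hρ ω hω hint h1 h2 h20 hq A C hb1 hb2
  obtain ⟨u, v, hv, huv⟩ :=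
    Pool.Agent.W_b91de3_h49.rational_of_meromorphic hf hρ hω hint h1 h2 h20 hq A C hb1 hb2
  exact ⟨⟨u, v, hv, huv⟩, Pool.Agent.W_b91de3_h49.bounded_of_rational hv huv⟩

end Pool.Agent.Results.MP_b91de3_nt.MeromorphicFiniteOrder
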